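import Mathlib

/-!
# Exact Triangle on complete tripartite graphs, digests of the weights, and votes

The vertices are `0, …, n - 1`; the three classes are the residues modulo 3, and the edges are the
pairs of vertices from different classes.
-/

set_option autoImplicit false

open Finset

namespace Pool.Agent.Helper94.DV

/-- The instances: integer weights of the pairs of vertices, of absolute value at most `n ^ 300`
(the weights of the pairs inside the classes do not matter). -/
abbrev Inst (n : ℕ) : Type := {w : Sym2 (Fin n) → ℤ // ∀ e, |w e| ≤ (n : ℤ) ^ 300}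

/-- Some triangle (with one vertex in every class) has weight zero. -/
def Yes {n : ℕ} (w : Inst n) : Prop :=
  ∃ a b c : Fin n, (a : ℕ) % 3 ≠ (b : ℕ) % 3 ∧ (b : ℕ) % 3 ≠ (c : ℕ) % 3 ∧
    (a : ℕ) % 3 ≠ (c : ℕ) % 3 ∧ w.1 s(a, b) + w.1 s(b, c) + w.1 s(a, c) = 0

/-- The voter `H` is an arbitrary real function of the digests `δ e (w e)` of all the weights and of
the exact weights of the pairs in `Q`. -/
def Knows {n K : ℕ} (δ : Sym2 (Fin n) → ℤ → Fin K) (Q : Set (Sym2 (Fin n))) (H : Inst n → ℝ) :
    Prop :=
  ∀ w w' : Inst n, (∀ e, δ e (w.1 e) = δ e (w'.1 e)) → (∀ e ∈ Q, w.1 e = w'.1 e) → H w = H w'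

/-- The voter `H` is an arbitrary real function of two of the three weight matrices (of the weights
of all the pairs with a vertex in the class `p`) and of the digests of all the weights. -/
def Free {n K : ℕ} (δ : Sym2 (Fin n) → ℤ → Fin K) (H : Inst n → ℝ) : Prop :=
  ∃ p : ℕ, Knows δ {e | ∃ u ∈ e, (u : ℕ) % 3 = p} H

/-- The voter `H` is an arbitrary real function of `t` exact weights and of the digests of all the
weights. -/
def Local {n K : ℕ} (δ : Sym2 (Fin n) → ℤ → Fin K) (t : ℕ) (H : Inst n → ℝ) : Prop :=
  ∃ Q : Finset (Sym2 (Fin n)), Q.card ≤ t ∧ Knows δ Q H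

/-- Decision trees of depth `d`. A node reads one weight; the further course depends on it in an
arbitrary way. A leaf carries the vote. -/
inductive Tree (n : ℕ) : ℕ → Type
  | leaf {d : ℕ} (v : ℝ) : Tree n d
  | node {d : ℕ} (e : Sym2 (Fin n)) (next : ℤ → Tree n d) : Tree n (d + 1)

/-- The vote of a decision tree. -/
def Tree.eval {n : ℕ} : {d : ℕ} → Tree n d → (Sym2 (Fin n) → ℤ) → ℝ
  | _, .leaf v, _ => v
  | _, .node e next, w => (next (w e)).eval w

/-- The voter `H` is a decision tree that reads at most `t` exact weights adaptively and depends in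
an arbitrary way on the digests of all the weights. -/
def Adaptive {n K : ℕ} (δ : Sym2 (Fin n) → ℤ → Fin K) (t : ℕ) (H : Inst n → ℝ) : Prop :=
  ∃ T : (Sym2 (Fin n) → Fin K) → Tree n t, ∀ w : Inst n, H w = (T fun e => δ e (w.1 e)).eval w.1

open Classical in
/-- The random vote `H` (over the finite probability space `Ω`, with the uniform law) solves Exact
Triangle: on every instance it is right with probability at least `19/20`. It accepts if the sum of
the votes is positive. -/
def Solves {n : ℕ} {Ω ι : Type} [Fintype Ω] [Fintype ι] (H : Ω → ι → Inst n → ℝ) : Prop :=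
  ∀ w : Inst n,
    19 * Fintype.card Ω ≤ 20 * (univ.filter fun ω : Ω => (0 < ∑ i, H ω i w ↔ Yes w)).card

end Pool.Agent.Helper94.DV
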