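import Pool.Agent.Helper94.DV.Defs
import Pool.Agent.Helper94.DG.Clean

/-!
# From the votes on `Sym2 (Fin n)` to the votes on matrices: the lower bounds
-/

set_option autoImplicit false

open Finset

namespace Pool.Agent.Helper94.DV

open Pool.Agent.Helper22.ETModel Pool.Agent.Helper8.VT Pool.Agent.Helper8.UV
open Pool.Agent.Helper53.TC5 Pool.Agent.Helper94.DG

variable {n : ℕ}

/-- A symmetric function of the cell from an arbitrary matrix. -/
def sym {α : Type} (w : Fin n → Fin n → α) (u v : Fin n) : α :=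
  if (u : ℕ) % 3 < (v : ℕ) % 3 then w u v else if (v : ℕ) % 3 < (u : ℕ) % 3 then w v u else
    w (min u v) (max u v)

lemma sym_comm {α : Type} (w : Fin n → Fin n → α) (u v : Fin n) : sym w u v = sym w v u := by
  unfold sym
  split_ifs
  · omega
  · rfl
  · rfl
  · rw [min_comm, max_comm]

lemma sym_eq {α : Type} {w : Fin n → Fin n → α} (h : ∀ i j, w i j = w j i) (u v : Fin n) :
    sym w u v = w u v := by
  unfold sym
  split_ifs
  · rfl
  · exact h v u
  · rcases le_total u v with hh | hh
    · rw [min_eq_left hh, max_eq_right hh]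
    · rw [min_eq_right hh, max_eq_left hh]
      exact h v u

/-- The function on pairs. -/
def lift {α : Type} (w : Fin n → Fin n → α) : Sym2 (Fin n) → α :=
  Sym2.lift ⟨sym w, sym_comm w⟩

@[simp] lemma lift_mk {α : Type} (w : Fin n → Fin n → α) (u v : Fin n) :
    lift w s(u, v) = sym w u v := rfl

open Classical in
/-- The instance with given weights. -/
noncomputable def back (w : Wts n) : DV.Inst n :=
  if h : ∀ e, |lift w e| ≤ (n : ℤ) ^ 300 then ⟨lift w, h⟩ else ⟨fun _ => 0, fun _ => by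
    rw [abs_zero]; positivity⟩

lemma back_eq {f : Flags n} {w : Wts n} (h : (⟨f, w⟩ : Helper22.ETModel.Inst n).Valid) (u v : Fin n) :
    (back w).1 s(u, v) = w u v := by
  have h1 : ∀ e, |lift w e| ≤ (n : ℤ) ^ 300 := by
    intro e
    induction e using Sym2.ind with
    | _ a b =>
      rw [lift_mk, sym_eq h.2.2.1]
      exact h.2.2.2 a b
  unfold back
  rw [dif_pos h1]
  exact sym_eq h.2.2.1 u v

variable {K : ℕ}

/-- The digests of a matrix. -/
def dig (δ : Sym2 (Fin n) → ℤ → Fin K) : Flags n → ∀ u v : Fin n, ℤ → Fin K :=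
  fun _ u v => δ s(u, v)

lemma sees_of_knows {δ : Sym2 (Fin n) → ℤ → Fin K} {S : Set (Sym2 (Fin n))} {H : DV.Inst n → ℝ}
    (h : Knows δ S H) (f : Flags n) (Q : Finset (Fin n × Fin n))
    (hQ : ∀ u v : Fin n, s(u, v) ∈ S → Has Q u v ∨ (u : ℕ) % 3 = (v : ℕ) % 3) :
    Sees f (K := fun _ _ => K) (dig δ f) Q (fun I : Helper22.ETModel.Inst n => H (back I.wt)) := by
  intro w w' hw hw' h1 h2
  have hs : ∀ u v : Fin n, δ s(u, v) (w u v) = δ s(u, v) (w' u v) := by
    intro u v
    rcases lt_trichotomy ((u : ℕ) % 3) ((v : ℕ) % 3) with huv | huv | huv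
    · exact h1 u v huv
    · rw [h2 u v (Or.inr huv)]
    · have := h1 v u huv
      simp only [dig] at this
      rw [Sym2.eq_swap, show w u v = w v u from hw.2.2.1 u v,
        show w' u v = w' v u from hw'.2.2.1 u v]
      exact this
  refine h (back w) (back w') ?_ ?_
  · intro e
    induction e using Sym2.ind with
    | _ u v =>
      rw [back_eq hw, back_eq hw']
      exact hs u v
  · intro e he
    induction e using Sym2.ind with
    | _ u v =>
      rw [back_eq hw, back_eq hw']
      exact h2 u v (hQ u v he)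

lemma twoSides_of_free {δ : Sym2 (Fin n) → ℤ → Fin K} {H : DV.Inst n → ℝ} (h : Free δ H) :
    TwoSides (K := fun _ _ => K) (dig δ) (fun I : Helper22.ETModel.Inst n => H (back I.wt)) := by
  obtain ⟨p, hp⟩ := h
  intro f
  have key : ∃ a b : ℕ, a < b ∧ b < 3 ∧ a ≠ p ∧ b ≠ p := by
    by_cases h0 : p = 0
    · exact ⟨1, 2, by omega, by omega, by omega, by omega⟩
    · by_cases h1 : p = 1
      · exact ⟨0, 2, by omega, by omega, by omega, by omega⟩
      · exact ⟨0, 1, by omega, by omega, by omega, by omega⟩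
  obtain ⟨a, b, hab, hb, hap, hbp⟩ := key
  refine ⟨a, b, hab, hb, sees_of_knows hp f _ ?_⟩
  intro u v huv
  left
  rw [has_compl]
  obtain ⟨x, hx, hxp⟩ := huv
  rw [Sym2.mem_iff] at hx
  unfold Side
  rcases hx with rfl | rfl
  · omega
  · omega

lemma cells_of_local {δ : Sym2 (Fin n) → ℤ → Fin K} {t : ℕ} {H : DV.Inst n → ℝ}
    (h : Local δ t H) :
    Cells (K := fun _ _ => K) (dig δ) t (fun I : Helper22.ETModel.Inst n => H (back I.wt)) := by
  classical
  obtain ⟨Q, hQt, hQ⟩ := h
  intro f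
  refine ⟨Q.image Quot.out, Finset.card_image_le.trans hQt, sees_of_knows hQ f _ ?_⟩
  intro u v huv
  left
  have h1 : Quot.out s(u, v) ∈ Q.image Quot.out :=
    Finset.mem_image_of_mem _ (Finset.mem_coe.1 huv)
  have h2 : s((Quot.out s(u, v)).1, (Quot.out s(u, v)).2) = s(u, v) := Quot.out_eq s(u, v)
  rw [Sym2.eq_iff] at h2
  unfold Has
  rcases h2 with ⟨h3, h4⟩ | ⟨h3, h4⟩
  · left
    have : Quot.out s(u, v) = (u, v) := Prod.ext h3 h4
    rwa [this] at h1
  · right
    have : Quot.out s(u, v) = (v, u) := Prod.ext h3 h4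
    rwa [this] at h1

/-- The tree that reads cells. -/
noncomputable def conv : {d : ℕ} → DV.Tree n d → Helper8.VT.Tree n d
  | _, .leaf v => .leaf v
  | _, .node e next => .node (Quot.out e).1 (Quot.out e).2 fun x => conv (next x)

lemma conv_eval {f : Flags n} {w : Wts n} (hw : (⟨f, w⟩ : Helper22.ETModel.Inst n).Valid) :
    ∀ {d : ℕ} (T : DV.Tree n d), (conv T).eval w = T.eval (back w).1
  | _, .leaf v => rfl
  | _, .node e next => by
    have h1 : w (Quot.out e).1 (Quot.out e).2 = (back w).1 e := by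
      rw [← back_eq hw]
      exact congrArg (back w).1 (Quot.out_eq e)
    change (conv (next (w (Quot.out e).1 (Quot.out e).2))).eval w =
      (next ((back w).1 e)).eval (back w).1
    rw [h1]
    exact conv_eval hw _

lemma probes_of_adaptive {δ : Sym2 (Fin n) → ℤ → Fin K} {t : ℕ} {H : DV.Inst n → ℝ}
    (h : Adaptive δ t H) :
    Probes (K := fun _ _ => K) (dig δ) t (fun I : Helper22.ETModel.Inst n => H (back I.wt)) := by
  obtain ⟨T, hT⟩ := h
  intro f
  refine ⟨fun w => conv (T (lift fun u v => δ s(u, v) (w u v))), ?_, ?_⟩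
  · intro w w' h1 h2
    have : (lift fun u v => δ s(u, v) (w u v)) = lift fun u v => δ s(u, v) (w' u v) := by
      funext e
      induction e using Sym2.ind with
      | _ u v =>
        rw [lift_mk, lift_mk]
        unfold sym
        split_ifs with h3 h4
        · exact h1 u v h3
        · exact h1 v u h4
        · have h5 : (u : ℕ) % 3 = (v : ℕ) % 3 := by omega
          have h6 : w (min u v) (max u v) = w' (min u v) (max u v) := by
            refine h2 _ _ ?_
            rcases le_total u v with hh | hh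
            · rw [min_eq_left hh, max_eq_right hh]
              exact h5
            · rw [min_eq_right hh, max_eq_left hh]
              exact h5.symm
          change δ s(min u v, max u v) (w (min u v) (max u v)) =
            δ s(min u v, max u v) (w' (min u v) (max u v))
          rw [h6]
    change conv (T _) = conv (T _)
    rw [this]
  · intro w hw
    rw [conv_eval hw]
    have : (lift fun u v => δ s(u, v) (w u v)) = fun e => δ e ((back w).1 e) := by
      funext e
      induction e using Sym2.ind with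
      | _ u v =>
        rw [lift_mk, sym_eq, back_eq hw]
        intro i j
        rw [Sym2.eq_swap, show w i j = w j i from hw.2.2.1 i j]
    rw [this]
    exact hT (back w)

lemma back_yes {I : Helper22.ETModel.Inst n} (hI : I.Valid) (hT : Tripartite I) :
    Yes (back I.wt) ↔ I.Yes := by
  have hb : ∀ u v, (back I.wt).1 s(u, v) = I.wt u v := fun u v => back_eq (f := I.flag) hI u v
  unfold Yes Inst.Yes
  constructor
  · rintro ⟨a, b, c, h1, h2, h3, h4⟩
    rw [hb, hb, hb] at h4
    exact ⟨a, b, c, fun h => h1 (by rw [h]), fun h => h2 (by rw [h]), fun h => h3 (by rw [h]),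
      (hT a b).2 h1, (hT b c).2 h2, (hT a c).2 h3, h4⟩
  · rintro ⟨a, b, c, -, -, -, h1, h2, h3, h4⟩
    refine ⟨a, b, c, (hT a b).1 h1, (hT b c).1 h2, (hT a c).1 h3, ?_⟩
    rw [hb, hb, hb]
    exact h4

open Classical in
lemma decides_of_solves {Ω ι : Type} [Fintype Ω] [Fintype ι] {H : Ω → ι → DV.Inst n → ℝ}
    (h : Solves H) (I : Helper22.ETModel.Inst n) (hI : I.Valid) (hT : Tripartite I) :
    Decides (fun ω i (I : Helper22.ETModel.Inst n) => H ω i (back I.wt)) I := by
  have h1 := h (back I.wt)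
  unfold Decides
  refine h1.trans (Nat.mul_le_mul_left _ (Finset.card_le_card fun ω hω => ?_))
  rw [Finset.mem_filter] at hω ⊢
  exact ⟨hω.1, hω.2.trans (back_yes hI hT)⟩

/-- Fixed wires. -/
theorem fixed (n K t N : ℕ) (Ω ι : Type) [Fintype Ω] [Nonempty Ω] [Fintype ι]
    (δ : Ω → Sym2 (Fin n) → ℤ → Fin K) (H : Ω → ι ⊕ Fin N → DV.Inst n → ℝ)
    (hF : ∀ ω i, Free (δ ω) (H ω (.inl i))) (hL : ∀ ω i, Local (δ ω) t (H ω (.inr i)))
    (hS : Solves H) : (n : ℝ) ^ 3 ≤ 2 ^ 32 * (K + N * (t : ℝ) ^ (3 / 2 : ℝ)) :=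
  clean_fixed n K t N Ω ι (fun ω => dig (δ ω)) (fun ω i I => H ω i (back I.wt))
    (fun ω i => twoSides_of_free (hF ω i)) (fun ω i => cells_of_local (hL ω i))
    (fun I hI hT => decides_of_solves hS I hI hT)

/-- Adaptive wires. -/
theorem adaptive (n K t N : ℕ) (Ω ι : Type) [Fintype Ω] [Nonempty Ω] [Fintype ι]
    (δ : Ω → Sym2 (Fin n) → ℤ → Fin K) (H : Ω → ι ⊕ Fin N → DV.Inst n → ℝ)
    (hF : ∀ ω i, Free (δ ω) (H ω (.inl i))) (hL : ∀ ω i, Adaptive (δ ω) t (H ω (.inr i)))
    (hS : Solves H) : (n : ℝ) ^ 3 ≤ 2 ^ 70 * (K * (1 + N * (t : ℝ) ^ (3 / 2 : ℝ))) :=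
  clean_adaptive n K t N Ω ι (fun ω => dig (δ ω)) (fun ω i I => H ω i (back I.wt))
    (fun ω i => twoSides_of_free (hF ω i)) (fun ω i => probes_of_adaptive (hL ω i))
    (fun I hI hT => decides_of_solves hS I hI hT)

end Pool.Agent.Helper94.DV
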