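import Pool.Agent.Helper94.DV.Defs
import Pool.Agent.Helper94.DG.Clean

/-!
# From the votes on matrices to the votes on `Sym2 (Fin n)`: the upper bounds
-/

set_option autoImplicit false

open Finset

namespace Pool.Agent.Helper94.DV

open Pool.Agent.Helper22.ETModel Pool.Agent.Helper8.VT Pool.Agent.Helper8.UV
open Pool.Agent.Helper53.TC5 Pool.Agent.Helper94.DG

variable {n : ℕ}

/-- The flags of the complete tripartite graph. -/
def tri3 (n : ℕ) : Flags n := fun u v => decide ((u : ℕ) % 3 ≠ (v : ℕ) % 3)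

/-- The matrix of the weights, with zeros inside the classes. -/
def mat (w : Sym2 (Fin n) → ℤ) : Wts n := fun u v =>
  if (u : ℕ) % 3 = (v : ℕ) % 3 then 0 else w s(u, v)

/-- The instance given by matrices. -/
def emb (w : DV.Inst n) : Helper22.ETModel.Inst n := ⟨tri3 n, mat w.1⟩

lemma mat_in {w : Sym2 (Fin n) → ℤ} {u v : Fin n} (h : (u : ℕ) % 3 = (v : ℕ) % 3) :
    mat w u v = 0 := if_pos h

lemma mat_out {w : Sym2 (Fin n) → ℤ} {u v : Fin n} (h : (u : ℕ) % 3 ≠ (v : ℕ) % 3) :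
    mat w u v = w s(u, v) := if_neg h

lemma emb_valid (w : DV.Inst n) : (emb w).Valid := by
  refine ⟨fun i j => ?_, fun i => ?_, fun i j => ?_, fun i j => ?_⟩
  · change tri3 n i j = tri3 n j i
    unfold tri3
    exact decide_eq_decide.2 ne_comm
  · change tri3 n i i = false
    unfold tri3
    exact decide_eq_false fun h => h rfl
  · change mat w.1 i j = mat w.1 j i
    by_cases h : (i : ℕ) % 3 = (j : ℕ) % 3
    · rw [mat_in h, mat_in h.symm]
    · rw [mat_out h, mat_out (Ne.symm h), Sym2.eq_swap]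
  · change |mat w.1 i j| ≤ _
    by_cases h : (i : ℕ) % 3 = (j : ℕ) % 3
    · rw [mat_in h, abs_zero]
      positivity
    · rw [mat_out h]
      exact w.2 _

lemma emb_tri (w : DV.Inst n) : Tripartite (emb w) := fun _ _ => decide_eq_true_iff

lemma emb_yes (w : DV.Inst n) : (emb w).Yes ↔ Yes w := by
  unfold Yes Inst.Yes
  constructor
  · rintro ⟨a, b, c, -, -, -, h1, h2, h3, h4⟩
    have e1 := (emb_tri w a b).1 h1
    have e2 := (emb_tri w b c).1 h2
    have e3 := (emb_tri w a c).1 h3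
    refine ⟨a, b, c, e1, e2, e3, ?_⟩
    change mat w.1 a b + mat w.1 b c + mat w.1 a c = 0 at h4
    rwa [mat_out e1, mat_out e2, mat_out e3] at h4
  · rintro ⟨a, b, c, e1, e2, e3, h4⟩
    refine ⟨a, b, c, fun h => e1 (by rw [h]), fun h => e2 (by rw [h]), fun h => e3 (by rw [h]),
      (emb_tri w a b).2 e1, (emb_tri w b c).2 e2, (emb_tri w a c).2 e3, ?_⟩
    change mat w.1 a b + mat w.1 b c + mat w.1 a c = 0
    rwa [mat_out e1, mat_out e2, mat_out e3]

variable {K : ℕ}

lemma free_of_twoSides {δ : ℤ → Fin K} {H : Helper22.ETModel.Inst n → ℝ}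
    (h : TwoSides (K := fun _ _ => K) (fun _ _ _ => δ) H) :
    Free (fun _ : Sym2 (Fin n) => δ) (fun w : DV.Inst n => H (emb w)) := by
  obtain ⟨p, q, hpq, hq, hs⟩ := h (tri3 n)
  refine ⟨3 - p - q, fun w w' h1 h2 => ?_⟩
  refine hs (mat w.1) (mat w'.1) (emb_valid w) (emb_valid w') ?_ ?_
  · intro u v huv
    rw [mat_out (ne_of_lt huv), mat_out (ne_of_lt huv)]
    exact h1 s(u, v)
  · intro u v huv
    by_cases h : (u : ℕ) % 3 = (v : ℕ) % 3
    · rw [mat_in h, mat_in h]
    · rw [mat_out h, mat_out h]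
      rcases huv with huv | huv
      · rw [has_compl] at huv
        unfold Side at huv
        apply h2
        have : (u : ℕ) % 3 = 3 - p - q ∨ (v : ℕ) % 3 = 3 - p - q := by omega
        rcases this with h3 | h3
        · exact ⟨u, Sym2.mem_mk_left u v, h3⟩
        · exact ⟨v, Sym2.mem_mk_right u v, h3⟩
      · exact absurd huv h

open Classical in
lemma solves_of_decides {Ω ι : Type} [Fintype Ω] [Fintype ι]
    {H : Ω → ι → Helper22.ETModel.Inst n → ℝ}
    (h : ∀ I : Helper22.ETModel.Inst n, I.Valid → Tripartite I → Decides H I) :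
    Solves (fun ω i (w : DV.Inst n) => H ω i (emb w)) := by
  intro w
  have h1 := h (emb w) (emb_valid w) (emb_tri w)
  unfold Decides at h1
  refine h1.trans (Nat.mul_le_mul_left _ (Finset.card_le_card fun ω hω => ?_))
  rw [Finset.mem_filter] at hω ⊢
  exact ⟨hω.1, hω.2.trans (emb_yes w)⟩

/-- The tree that reads pairs. -/
noncomputable def cnv : {d : ℕ} → Helper8.VT.Tree n d → DV.Tree n d
  | _, .leaf v => .leaf v
  | _, .node i j next => .node s(i, j) fun x =>
      cnv (next (if (i : ℕ) % 3 = (j : ℕ) % 3 then 0 else x))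

lemma cnv_eval (w : Sym2 (Fin n) → ℤ) :
    ∀ {d : ℕ} (T : Helper8.VT.Tree n d), (cnv T).eval w = T.eval (mat w)
  | _, .leaf v => rfl
  | _, .node i j next => cnv_eval w (next (mat w i j))

open Classical in
/-- A weight with the digest `x`. -/
noncomputable def pre (δ : ℤ → Fin K) (x : Fin K) : ℤ := if h : ∃ a, δ a = x then h.choose else 0

lemma pre_eq (δ : ℤ → Fin K) (a : ℤ) : δ (pre δ (δ a)) = δ a := by
  have h : ∃ b, δ b = δ a := ⟨a, rfl⟩
  unfold pre
  rw [dif_pos h]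
  exact h.choose_spec

lemma adaptive_of_probes {δ : ℤ → Fin K} {t : ℕ} {H : Helper22.ETModel.Inst n → ℝ}
    (h : Probes (K := fun _ _ => K) (fun _ _ _ => δ) t H) :
    Adaptive (fun _ : Sym2 (Fin n) => δ) t (fun w : DV.Inst n => H (emb w)) := by
  obtain ⟨T, h1, h2⟩ := h (tri3 n)
  refine ⟨fun g => cnv (T (mat fun e => pre δ (g e))), fun w => ?_⟩
  rw [cnv_eval]
  have h3 : T (mat fun e => pre δ (δ (w.1 e))) = T (mat w.1) := by
    apply h1
    · intro u v huv
      rw [mat_out (ne_of_lt huv), mat_out (ne_of_lt huv)]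
      exact pre_eq δ _
    · intro u v huv
      rw [mat_in huv, mat_in huv]
  rw [h3]
  exact h2 (mat w.1) (emb_valid w)

/-- One free voter. -/
theorem free (n : ℕ) (hn : 1 ≤ n) : ∃ (Ω : Type) (_ : Fintype Ω) (_ : Nonempty Ω)
    (δ : Ω → ℤ → Fin (n ^ 3)) (H : Ω → DV.Inst n → ℝ),
    (∀ ω, Free (fun _ => δ ω) (H ω)) ∧ Solves (fun ω (_ : Fin 1) => H ω) := by
  obtain ⟨Ω, i1, i2, δ, H, h1, h2⟩ := clean_free n hn
  exact ⟨Ω, i1, i2, δ, fun ω w => H ω (emb w), fun ω => free_of_twoSides (h1 ω),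
    solves_of_decides h2⟩

/-- Trees that read three weights. -/
theorem trees (n K : ℕ) (hK : 1 ≤ K) (hKn : K ≤ n ^ 3) :
    ∃ (N : ℕ) (Ω : Type) (_ : Fintype Ω) (_ : Nonempty Ω)
      (δ : Ω → ℤ → Fin K) (H : Ω → Fin N → DV.Inst n → ℝ), N * K ≤ 8 * n ^ 3 ∧
      (∀ ω i, Adaptive (fun _ => δ ω) 3 (H ω i)) ∧ Solves H := by
  obtain ⟨N, Ω, i1, i2, δ, H, h0, h1, h2⟩ := clean_trees n K hK hKn
  exact ⟨N, Ω, i1, i2, δ, fun ω i w => H ω i (emb w), h0, fun ω i => adaptive_of_probes (h1 ω i),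
    solves_of_decides h2⟩

/-- Functions of three weights. -/
theorem three (n : ℕ) : ∃ H : Fin ((n + 2) / 3 * ((n + 1) / 3) * (n / 3)) → DV.Inst n → ℝ,
    (∀ r, Local (fun _ _ => (0 : Fin 1)) 3 (H r)) ∧ ∀ w, (0 < ∑ r, H r w ↔ Yes w) := by
  classical
  obtain ⟨H, h1, h2⟩ := Pool.Agent.Helper94.DG.Three.clean_three n
  refine ⟨fun r w => H r (emb w), fun r => ?_, fun w => ?_⟩
  · obtain ⟨a, b, c, ha, hb, hc, h⟩ := h1 r
    refine ⟨{s(a, b), s(b, c), s(a, c)}, Finset.card_le_three, fun w w' _ h3 => ?_⟩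
    have key : ∀ u v : Fin n, s(u, v) ∈ ({s(a, b), s(b, c), s(a, c)} : Finset (Sym2 (Fin n))) →
        mat w.1 u v = mat w'.1 u v := by
      intro u v huv
      unfold mat
      rw [h3 _ (Finset.mem_coe.2 huv)]
    exact h (tri3 n) (mat w.1) (mat w'.1) (key a b (by simp)) (key b c (by simp))
      (key a c (by simp))
  · exact (h2 (emb w) (emb_valid w) (emb_tri w)).trans (emb_yes w)

end Pool.Agent.Helper94.DV
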